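import Pool.Agent.Helper87.RP.Defs

/-! MP_4e034d_co, module U2: refinement of a certificate by iterated barycentric subdivision. -/

namespace Pool.Agent.Helper7.RP

open Finset Pool.Agent.Helper87.RP

section chain
variable {E : Type}

theorem dd_single (l : List E) (r : ZMod 2) : dd (Finsupp.single l r) = r • bd l := by
  simp [dd]

theorem cone_single (b : E) (l : List E) (r : ZMod 2) :
    cone b (Finsupp.single l r) = Finsupp.single (b :: l) r := by
  simp [cone, Finsupp.lmapDomain_apply, Finsupp.mapDomain_single]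

theorem bd_cons (x : E) (l : List E) : bd (x :: l) = Finsupp.single l 1 + cone x (bd l) := rfl

theorem dd_cone (b : E) (c : Ch E) : dd (cone b c) = c + cone b (dd c) := by
  induction c using Finsupp.induction_linear with
  | zero => simp
  | add f g hf hg => rw [map_add, map_add, hf, hg, map_add, map_add]; abel
  | single l r =>
    rw [cone_single, dd_single, dd_single, bd_cons, smul_add, map_smul]
    simp

theorem ch_add_self (c : Ch E) : c + c = 0 := by
  ext l
  simp [CharTwo.add_self_eq_zero]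

theorem dd_bd (l : List E) : dd (bd l) = 0 := by
  induction l with
  | nil => simp [bd]
  | cons x l ih =>
    rw [bd_cons, map_add, dd_cone, dd_single, one_smul, ih, map_zero, add_zero]
    exact ch_add_self _

theorem mem_support_cone {b : E} {c : Ch E} {l' : List E} (h : l' ∈ (cone b c).support) :
    ∃ l ∈ c.support, l' = b :: l := by
  classical
  have := Finsupp.mapDomain_support (f := List.cons b) (s := c) h
  rw [Finset.mem_image] at this
  obtain ⟨l, hl, rfl⟩ := this
  exact ⟨l, hl, rfl⟩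

theorem mem_support_bd {l l' : List E} (h : l' ∈ (bd l).support) :
    l'.length + 1 = l.length ∧ ∀ x ∈ l', x ∈ l := by
  classical
  induction l generalizing l' with
  | nil => simp [bd] at h
  | cons x l ih =>
    rw [bd_cons] at h
    have h1 := Finsupp.support_add h
    rw [Finset.mem_union] at h1
    rcases h1 with h1 | h1
    · have h2 := Finsupp.support_single_subset h1
      rw [Finset.mem_singleton] at h2
      subst h2
      exact ⟨rfl, fun y hy => List.mem_cons_of_mem _ hy⟩
    · obtain ⟨l'', hl, rfl⟩ := mem_support_cone h1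
      obtain ⟨h3, h4⟩ := ih hl
      refine ⟨by simp [h3], fun y hy => ?_⟩
      rcases List.mem_cons.1 hy with rfl | hy
      · exact List.mem_cons_self
      · exact List.mem_cons_of_mem _ (h4 y hy)

/-- Linear extension of a function on lists. -/
noncomputable def lin (S : List E → Ch E) : Ch E →ₗ[ZMod 2] Ch E :=
  Finsupp.linearCombination (ZMod 2) S

theorem lin_single (S : List E → Ch E) (l : List E) (r : ZMod 2) :
    lin S (Finsupp.single l r) = r • S l := by
  simp [lin]

theorem mem_support_lin {S : List E → Ch E} {c : Ch E} {l' : List E}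
    (h : l' ∈ (lin S c).support) : ∃ l ∈ c.support, l' ∈ (S l).support := by
  classical
  have h0 : lin S c = c.sum fun l r => r • S l := by
    rw [lin, Finsupp.linearCombination_apply]
  rw [h0] at h
  have h1 := Finsupp.support_sum h
  rw [Finset.mem_biUnion] at h1
  obtain ⟨l, hl, h2⟩ := h1
  exact ⟨l, hl, Finsupp.support_smul h2⟩

end chain

section sub
variable {E : Type} [NormedAddCommGroup E] [NormedSpace ℝ E]

/-- The average of a list. -/
noncomputable def bar (l : List E) : E := (l.length : ℝ)⁻¹ • l.sum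

/-- Barycentric subdivision. -/
noncomputable def sub : ℕ → List E → Ch E
  | 0 => fun l => Finsupp.single l 1
  | m + 1 => fun l => cone (bar l) (lin (sub m) (bd l))

theorem lin_sub_zero (c : Ch E) : lin (sub 0) c = c := by
  induction c using Finsupp.induction_linear with
  | zero => simp
  | add f g hf hg => rw [map_add, hf, hg]
  | single l r => rw [lin_single]; simp [sub]

theorem dd_lin_sub_of {m : ℕ} (h : ∀ l : List E, l.length = m + 1 →
    dd (sub (m + 1) l) = lin (sub m) (bd l)) (c : Ch E)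
    (hc : ∀ l ∈ c.support, l.length = m + 1) :
    dd (lin (sub (m + 1)) c) = lin (sub m) (dd c) := by
  classical
  have h0 : c = ∑ l ∈ c.support, Finsupp.single l (c l) := by
    conv_lhs => rw [← Finsupp.sum_single c]
    rfl
  rw [h0, map_sum, map_sum, map_sum, map_sum]
  refine Finset.sum_congr rfl fun l hl => ?_
  rw [lin_single, dd_single, map_smul, map_smul, h l (hc l hl)]

theorem dd_sub (m : ℕ) : ∀ l : List E, l.length = m + 1 →
    dd (sub (m + 1) l) = lin (sub m) (bd l) := by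
  induction m with
  | zero =>
    intro l hl
    change dd (cone (bar l) (lin (sub 0) (bd l))) = _
    rw [dd_cone, lin_sub_zero, dd_bd, map_zero, add_zero]
  | succ m ih =>
    intro l hl
    change dd (cone (bar l) (lin (sub (m + 1)) (bd l))) = _
    rw [dd_cone, dd_lin_sub_of ih (bd l), dd_bd, map_zero, map_zero, add_zero]
    intro l' hl'
    have := (mem_support_bd hl').1
    omega

theorem dd_lin_sub (m : ℕ) (c : Ch E) (hc : ∀ l ∈ c.support, l.length = m + 1) :
    dd (lin (sub (m + 1)) c) = lin (sub m) (dd c) :=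
  dd_lin_sub_of (dd_sub m) c hc

omit [NormedSpace ℝ E] in
theorem nu_single (l : List E) (r : ZMod 2) :
    nu (Finsupp.single l r) = Finsupp.single (l.map Neg.neg) r := by
  simp [nu, Finsupp.lmapDomain_apply, Finsupp.mapDomain_single]

omit [NormedSpace ℝ E] in
theorem nu_cone (b : E) (c : Ch E) : nu (cone b c) = cone (-b) (nu c) := by
  induction c using Finsupp.induction_linear with
  | zero => simp
  | add f g hf hg => rw [map_add, map_add, hf, hg, map_add, map_add]
  | single l r => rw [cone_single, nu_single, nu_single, cone_single]; rfl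

omit [NormedSpace ℝ E] in
theorem nu_bd (l : List E) : nu (bd l) = bd (l.map Neg.neg) := by
  induction l with
  | nil => simp [bd]
  | cons x l ih =>
    rw [bd_cons, map_add, nu_cone, nu_single, ih, List.map_cons, bd_cons]

theorem bar_neg (l : List E) : bar (l.map Neg.neg) = -bar l := by
  have h : (l.map Neg.neg).sum = -l.sum := by
    induction l with
    | nil => simp
    | cons x l ih => simp only [List.map_cons, List.sum_cons, ih]; abel
  rw [bar, bar, List.length_map, h, smul_neg]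

theorem nu_lin_of {m : ℕ} (h : ∀ l : List E, nu (sub m l) = sub m (l.map Neg.neg)) (c : Ch E) :
    nu (lin (sub m) c) = lin (sub m) (nu c) := by
  induction c using Finsupp.induction_linear with
  | zero => simp
  | add f g hf hg => rw [map_add, map_add, hf, hg, map_add, map_add]
  | single l r => rw [lin_single, nu_single, lin_single, map_smul, h]

theorem nu_sub (m : ℕ) : ∀ l : List E, nu (sub m l) = sub m (l.map Neg.neg) := by
  induction m with
  | zero => intro l; exact nu_single l 1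
  | succ m ih =>
    intro l
    change nu (cone (bar l) (lin (sub m) (bd l))) = cone (bar (l.map Neg.neg)) _
    rw [nu_cone, nu_lin_of ih, nu_bd, bar_neg]

theorem nu_lin (m : ℕ) (c : Ch E) : nu (lin (sub m) c) = lin (sub m) (nu c) :=
  nu_lin_of (nu_sub m) c

theorem bar_mem {l : List E} (hl : l ≠ []) : bar l ∈ convexHull ℝ {y | y ∈ l} := by
  classical
  have h0 : (l.length : ℝ) ≠ 0 := by
    have := List.length_pos_iff.2 hl
    positivity
  have h1 : bar l = ∑ i : Fin l.length, (l.length : ℝ)⁻¹ • l.get i := by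
    rw [bar, ← Finset.smul_sum]
    congr 1
    rw [← List.sum_ofFn]
    congr 1
    exact (List.ofFn_get l).symm
  rw [h1]
  refine (convex_convexHull ℝ _).sum_mem (fun i _ => by positivity) ?_ fun i _ => ?_
  · rw [Finset.sum_const, Finset.card_univ, Fintype.card_fin, nsmul_eq_mul, mul_inv_cancel₀ h0]
  · exact subset_convexHull ℝ _ (List.get_mem l i)

theorem bar_dist {l : List E} {m : ℕ} (hl : l.length = m + 1) {D : ℝ}
    (hD : ∀ x ∈ l, ∀ y ∈ l, ‖x - y‖ ≤ D) {w : E} (hw : w ∈ l) :
    ‖bar l - w‖ ≤ (m : ℝ) / (m + 1) * D := by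
  classical
  obtain ⟨j, rfl⟩ := List.get_of_mem hw
  have hm : (0 : ℝ) < m + 1 := by positivity
  have hlR : (l.length : ℝ) = m + 1 := by rw [hl]; push_cast; ring
  have h1 : bar l - l.get j = ∑ i : Fin l.length, ((m : ℝ) + 1)⁻¹ • (l.get i - l.get j) := by
    have h0 : l.sum = ∑ i : Fin l.length, l.get i := by
      rw [← List.sum_ofFn]
      congr 1
      exact (List.ofFn_get l).symm
    rw [bar, ← Finset.smul_sum, Finset.sum_sub_distrib, smul_sub, Finset.sum_const,
      Finset.card_univ, Fintype.card_fin, hlR, h0, ← Nat.cast_smul_eq_nsmul ℝ, smul_smul, hlR,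
      inv_mul_cancel₀ hm.ne', one_smul]
  rw [h1]
  refine (norm_sum_le _ _).trans ?_
  rw [← Finset.sum_erase_add _ _ (Finset.mem_univ j)]
  have h2 : ‖((m : ℝ) + 1)⁻¹ • (l.get j - l.get j)‖ = 0 := by simp
  rw [h2, add_zero]
  refine (Finset.sum_le_card_nsmul _ _ (((m : ℝ) + 1)⁻¹ * D) fun i _ => ?_).trans ?_
  · rw [norm_smul, Real.norm_of_nonneg (by positivity)]
    exact mul_le_mul_of_nonneg_left (hD _ (List.get_mem l i) _ (List.get_mem l j)) (by positivity)
  · rw [Finset.card_erase_of_mem (Finset.mem_univ j), Finset.card_univ, Fintype.card_fin, hl,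
      nsmul_eq_mul]
    have : ((m + 1 - 1 : ℕ) : ℝ) = m := by simp
    rw [this]
    apply le_of_eq
    field_simp

theorem mem_support_sub (m : ℕ) : ∀ l : List E, l.length = m → ∀ D : ℝ, 0 ≤ D →
    (∀ x ∈ l, ∀ y ∈ l, ‖x - y‖ ≤ D) → ∀ l' ∈ (sub m l).support, l'.length = m ∧
      (∀ x ∈ l', x ∈ convexHull ℝ {y | y ∈ l}) ∧
      (∀ x ∈ l', ∀ y ∈ l', ‖x - y‖ ≤ ((m : ℝ) - 1) / m * D) := by
  induction m with
  | zero =>
    intro l hl D hD0 hD l' hl'
    have h2 := Finsupp.support_single_subset hl'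
    rw [Finset.mem_singleton] at h2
    subst h2
    have : l' = [] := List.length_eq_zero_iff.1 hl
    subst this
    exact ⟨rfl, by simp, by simp⟩
  | succ m ih =>
    intro l hl D hD0 hD l' hl'
    change l' ∈ (cone (bar l) (lin (sub m) (bd l))).support at hl'
    obtain ⟨l₁, h1, rfl⟩ := mem_support_cone hl'
    obtain ⟨l₂, h2, h3⟩ := mem_support_lin h1
    obtain ⟨h4, h5⟩ := mem_support_bd h2
    obtain ⟨h6, h7, h8⟩ := ih l₂ (by omega) D hD0
      (fun x hx y hy => hD x (h5 x hx) y (h5 y hy)) l₁ h3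
    have hne : l ≠ [] := by
      intro h
      rw [h] at hl
      simp at hl
    have hsub : convexHull ℝ {y | y ∈ l₂} ⊆ convexHull ℝ {y | y ∈ l} :=
      convexHull_mono fun y hy => h5 y hy
    have hball : ∀ x ∈ l₁, ‖bar l - x‖ ≤ (m : ℝ) / (m + 1) * D := by
      intro x hx
      have h9 : convexHull ℝ {y | y ∈ l} ⊆ Metric.closedBall (bar l) ((m : ℝ) / (m + 1) * D) := by
        refine convexHull_min (fun y hy => ?_) (convex_closedBall _ _)
        rw [Metric.mem_closedBall, dist_comm, dist_eq_norm]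
        exact bar_dist hl hD hy
      have h10 := h9 (hsub (h7 x hx))
      rwa [Metric.mem_closedBall, dist_comm, dist_eq_norm] at h10
    have hD' : 0 ≤ (m : ℝ) / (m + 1) * D := by positivity
    refine ⟨by simp [h6], fun x hx => ?_, fun x hx y hy => ?_⟩
    · rcases List.mem_cons.1 hx with rfl | hx
      · exact bar_mem hne
      · exact hsub (h7 x hx)
    · have hgoal : (((m + 1 : ℕ) : ℝ) - 1) / ((m + 1 : ℕ) : ℝ) * D = (m : ℝ) / (m + 1) * D := by
        push_cast
        ring
      rw [hgoal]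
      rcases List.mem_cons.1 hx with rfl | hx
      · rcases List.mem_cons.1 hy with rfl | hy
        · rw [sub_self, norm_zero]; exact hD'
        · exact hball y hy
      · rcases List.mem_cons.1 hy with rfl | hy
        · rw [norm_sub_rev]; exact hball x hx
        · refine (h8 x hx y hy).trans ?_
          refine mul_le_mul_of_nonneg_right ?_ hD0
          rcases Nat.eq_zero_or_pos m with rfl | hm
          · simp
          · have hm' : (0 : ℝ) < m := by exact_mod_cast hm
            rw [div_le_div_iff₀ hm' (by positivity)]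
            nlinarith

/-- One step of subdivision. -/
theorem step (n : ℕ) (c : ℕ → Ch E) (hc : Cert n c) (D : ℝ) (hD0 : 0 ≤ D)
    (hD : ∀ j ≤ n, ∀ l ∈ (c j).support, ∀ x ∈ l, ∀ y ∈ l, ‖x - y‖ ≤ D) :
    ∃ c' : ℕ → Ch E, Cert n c' ∧ ∀ j ≤ n, ∀ l ∈ (c' j).support,
      (∀ x ∈ l, ∀ y ∈ l, ‖x - y‖ ≤ (n : ℝ) / (n + 1) * D) ∧
        ∃ l₀ ∈ (c j).support, ∀ x ∈ l, x ∈ convexHull ℝ {y | y ∈ l₀} := by
  refine ⟨fun j => lin (sub (j + 1)) (c j), ⟨?_, ?_, ?_⟩, ?_⟩
  · rw [dd_lin_sub 0 (c 0) (hc.len 0 (Nat.zero_le n)), lin_sub_zero, hc.zero]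
  · intro j hj
    rw [dd_lin_sub (j + 1) (c (j + 1)) (hc.len (j + 1) hj), hc.succ j hj, map_add, nu_lin]
  · intro j hj l hl
    obtain ⟨l₁, h1, h2⟩ := mem_support_lin hl
    exact (mem_support_sub (j + 1) l₁ (hc.len j hj l₁ h1) D hD0 (hD j hj l₁ h1) l h2).1
  · intro j hj l hl
    obtain ⟨l₁, h1, h2⟩ := mem_support_lin hl
    obtain ⟨h3, h4, h5⟩ := mem_support_sub (j + 1) l₁ (hc.len j hj l₁ h1) D hD0
      (hD j hj l₁ h1) l h2
    refine ⟨fun x hx y hy => (h5 x hx y hy).trans ?_, l₁, h1, h4⟩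
    refine mul_le_mul_of_nonneg_right ?_ hD0
    have hjn : (j : ℝ) ≤ n := by exact_mod_cast hj
    push_cast
    rw [div_le_div_iff₀ (by positivity) (by positivity)]
    nlinarith [Nat.cast_nonneg (α := ℝ) j]

theorem iter (n : ℕ) (c : ℕ → Ch E) (hc : Cert n c) (D : ℝ) (hD0 : 0 ≤ D)
    (hD : ∀ j ≤ n, ∀ l ∈ (c j).support, ∀ x ∈ l, ∀ y ∈ l, ‖x - y‖ ≤ D) (r : ℕ) :
    ∃ c' : ℕ → Ch E, Cert n c' ∧ ∀ j ≤ n, ∀ l ∈ (c' j).support,
      (∀ x ∈ l, ∀ y ∈ l, ‖x - y‖ ≤ ((n : ℝ) / (n + 1)) ^ r * D) ∧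
        ∃ l₀ ∈ (c j).support, ∀ x ∈ l, x ∈ convexHull ℝ {y | y ∈ l₀} := by
  induction r with
  | zero =>
    refine ⟨c, hc, fun j hj l hl => ⟨fun x hx y hy => ?_, l, hl, fun x hx => ?_⟩⟩
    · simpa using hD j hj l hl x hx y hy
    · exact subset_convexHull ℝ _ hx
  | succ r ih =>
    obtain ⟨c₁, hc₁, h1⟩ := ih
    obtain ⟨c₂, hc₂, h2⟩ := step n c₁ hc₁ (((n : ℝ) / (n + 1)) ^ r * D) (by positivity)
      (fun j hj l hl => (h1 j hj l hl).1)
    refine ⟨c₂, hc₂, fun j hj l hl => ?_⟩
    obtain ⟨h3, l₁, h4, h5⟩ := h2 j hj l hl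
    obtain ⟨h6, l₀, h7, h8⟩ := h1 j hj l₁ h4
    refine ⟨fun x hx y hy => (h3 x hx y hy).trans (le_of_eq ?_), l₀, h7, fun x hx => ?_⟩
    · rw [pow_succ]; ring
    · exact convexHull_min (fun y hy => h8 y hy) (convex_convexHull ℝ _) (h5 x hx)

end sub

/-- module U2 -/
theorem cert_refine {E : Type} [NormedAddCommGroup E] [NormedSpace ℝ E] (n : ℕ) (c : ℕ → Ch E)
    (hc : Cert n c) (δ : ℝ) (hδ : 0 < δ) : ∃ c' : ℕ → Ch E, Cert n c' ∧
      ∀ j ≤ n, ∀ l ∈ (c' j).support, (∀ x ∈ l, ∀ y ∈ l, ‖x - y‖ ≤ δ) ∧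
        ∃ l₀ ∈ (c j).support, ∀ x ∈ l, x ∈ convexHull ℝ {y | y ∈ l₀} := by
  classical
  obtain ⟨D, hD0, hD⟩ : ∃ D : ℝ, 0 ≤ D ∧
      ∀ j ≤ n, ∀ l ∈ (c j).support, ∀ x ∈ l, ∀ y ∈ l, ‖x - y‖ ≤ D := by
    refine ⟨∑ j ∈ Finset.range (n + 1), ∑ l ∈ (c j).support, ∑ x ∈ l.toFinset,
      ∑ y ∈ l.toFinset, ‖x - y‖, by positivity, fun j hj l hl x hx y hy => ?_⟩
    refine le_trans ?_ (Finset.single_le_sum (f := fun j => ∑ l ∈ (c j).support,
      ∑ x ∈ l.toFinset, ∑ y ∈ l.toFinset, ‖x - y‖) (fun i _ => by positivity)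
      (Finset.mem_range.2 (Nat.lt_succ_of_le hj)))
    refine le_trans ?_ (Finset.single_le_sum (f := fun l : List E =>
      ∑ x ∈ l.toFinset, ∑ y ∈ l.toFinset, ‖x - y‖) (fun i _ => by positivity) hl)
    refine le_trans ?_ (Finset.single_le_sum (f := fun x : E =>
      ∑ y ∈ l.toFinset, ‖x - y‖) (fun i _ => by positivity) (List.mem_toFinset.2 hx))
    exact Finset.single_le_sum (f := fun y : E => ‖x - y‖) (fun i _ => norm_nonneg _)
      (List.mem_toFinset.2 hy)
  have hq : (n : ℝ) / (n + 1) < 1 := by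
    rw [div_lt_one (by positivity)]
    linarith
  have hq0 : 0 ≤ (n : ℝ) / (n + 1) := by positivity
  obtain ⟨r, hr⟩ : ∃ r : ℕ, ((n : ℝ) / (n + 1)) ^ r * D ≤ δ := by
    obtain ⟨r, hr⟩ := exists_pow_lt_of_lt_one (show 0 < δ / (D + 1) by positivity) hq
    refine ⟨r, ?_⟩
    have h1 : ((n : ℝ) / (n + 1)) ^ r * D ≤ δ / (D + 1) * (D + 1) :=
      mul_le_mul hr.le (by linarith) hD0 (by positivity)
    rwa [div_mul_cancel₀ _ (by positivity)] at h1
  obtain ⟨c', hc', h⟩ := iter n c hc D hD0 hD r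
  exact ⟨c', hc', fun j hj l hl => ⟨fun x hx y hy => ((h j hj l hl).1 x hx y hy).trans hr,
    (h j hj l hl).2⟩⟩

end Pool.Agent.Helper7.RP
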